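import Mathlib
import Pool.Agent.Lib.MP_f9dad2_pr.Defs
import Pool.Agent.Lib.MP_f9dad2_pr.Main

/-!
# Query complexity at the algorithmic threshold of the continuous random energy model

For every Riemann integrable `a ≥ 0` on `[0, 1]` with integral one, every `g = o(N)` and every
sequence of algorithms, the number of queries needed to find a leaf with value at least
`x_* N - g N` is superlinear in probability.
-/

namespace Pool.Agent.Results.MP_f9dad2_pr.SuperlinearAtThreshold

open MeasureTheory ProbabilityTheory Filter Topology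
open scoped ENNReal
open Pool.Agent.Lib.MP_f9dad2_pr

section convert

variable {Ω : Type*} {mΩ : MeasurableSpace Ω} {P : Measure Ω} {N : ℕ}
  {X : Vtx N → Ω → ℝ} {U : ℕ → Ω → ℝ} {v : ℕ → Ω → Vtx N}

lemma queryInfo_le (n : ℕ) :
    queryInfo X U v n ≤ info X (fun k => U (k + 1)) (fun k => v (k + 1)) n := by
  unfold queryInfo info
  refine sup_le (sup_le ?_ ?_) ?_
  · refine iSup₂_le fun k hk => ?_
    refine le_trans ?_ (le_sup_left.trans le_sup_left)
    have h1 : k - 1 + 1 = k := Nat.sub_add_cancel hk.1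
    have h2 : k - 1 < n := by
      have := hk.1
      have := hk.2
      omega
    refine le_trans (le_of_eq ?_) (le_iSup (fun k : Fin n =>
      MeasurableSpace.comap (v (k + 1)) ⊤) ⟨k - 1, h2⟩)
    simp only [h1]
  · refine iSup₂_le fun k hk => ?_
    refine le_trans ?_ (le_sup_right.trans le_sup_left)
    have h1 : k - 1 + 1 = k := Nat.sub_add_cancel hk.1
    have h2 : k - 1 < n := by
      have := hk.1
      have := hk.2
      omega
    refine le_trans (le_of_eq ?_) (le_iSup (fun k : Fin n =>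
      MeasurableSpace.comap (fun ω => X (v (k + 1) ω) ω) (borel ℝ)) ⟨k - 1, h2⟩)
    simp only [h1]
  · refine iSup₂_le fun k hk => ?_
    refine le_trans ?_ le_sup_right
    have h1 : k - 1 + 1 = k := Nat.sub_add_cancel hk.1
    have h2 : k - 1 < n + 1 := by
      have := hk.1
      have := hk.2
      omega
    refine le_trans (le_of_eq ?_) (le_iSup (fun k : Fin (n + 1) =>
      MeasurableSpace.comap (U (k + 1)) (borel ℝ)) ⟨k - 1, h2⟩)
    simp only [h1]

lemma hitting_subset {C y : ℝ} :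
    {ω | hittingTime X v y ω ≤ ENNReal.ofReal (C * N)} ⊆
      {ω | ∃ R < ⌊C * N⌋₊, (v (R + 1) ω).1.length = N ∧ y ≤ X (v (R + 1) ω) ω} := by
  intro ω hω
  by_contra hcon
  simp only [Set.mem_ofPred_eq, not_exists, not_and] at hcon hω
  have h1 : ((⌊C * N⌋₊ + 1 : ℕ) : ℝ≥0∞) ≤ hittingTime X v y ω := by
    unfold hittingTime
    refine le_iInf₂ fun n hn => ?_
    obtain ⟨hn1, hn2, hn3⟩ := hn
    have h2 : n - 1 + 1 = n := Nat.sub_add_cancel hn1
    by_contra h3
    push Not at h3
    have h4 : n < ⌊C * N⌋₊ + 1 := by exact_mod_cast h3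
    refine hcon (n - 1) (by omega) ?_ ?_
    · rw [h2]
      exact hn2
    · rw [h2]
      exact hn3
  have h2 : ENNReal.ofReal (C * N) < ((⌊C * N⌋₊ + 1 : ℕ) : ℝ≥0∞) := by
    rw [← ENNReal.ofReal_natCast]
    rw [ENNReal.ofReal_lt_ofReal_iff (by positivity)]
    push_cast
    exact Nat.lt_floor_add_one _
  exact absurd (h1.trans hω) (not_le.2 h2)

end convert

/-- **Main theorem.** Let `a ≥ 0` be Riemann integrable on `[0, 1]` with integral one and let
`g = o(N)`. Whatever the probability spaces, the processes `X N` with covariance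
`N A(|v ∧ w| / N)`, the auxiliary randomness and the algorithms `v N` are, the hitting time `τ_N`
of the level `x_* N - g N` by `v N` satisfies `P(τ_N ≤ C N) → 0` for every constant `C`. -/
theorem result (a : ℝ → ℝ) (ha : ∀ t ∈ Set.Icc (0 : ℝ) 1, 0 ≤ a t) (hR : RiemannIntegrable a)
    (ha1 : ∫ t in (0 : ℝ)..1, a t = 1) (g : ℕ → ℝ) (hg : g =o[atTop] fun N => (N : ℝ))
    {Ω : ℕ → Type*} [∀ N, MeasurableSpace (Ω N)] (P : ∀ N, Measure (Ω N))
    [∀ N, IsProbabilityMeasure (P N)] (X : ∀ N, Vtx N → Ω N → ℝ)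
    (hX : ∀ N, IsCREM a N (X N) (P N)) (U : ∀ N, ℕ → Ω N → ℝ)
    (hU : ∀ N, IsAux (X N) (U N) (P N)) (v : ∀ N, ℕ → Ω N → Vtx N)
    (hv : ∀ N, IsAlgorithm (X N) (U N) (v N)) (C : ℝ) :
    Tendsto (fun N => P N {ω | hittingTime (X N) (v N) (xstar a * N - g N) ω ≤
      ENNReal.ofReal (C * N)}) atTop (𝓝 0) := by
  rw [ENNReal.tendsto_nhds_zero]
  intro ε hε
  obtain ⟨η, hη, hηε⟩ : ∃ η : ℝ, 0 < η ∧ ENNReal.ofReal η ≤ ε := by
    by_cases h : ε = ⊤
    · exact ⟨1, one_pos, by rw [h]; exact le_top⟩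
    · exact ⟨ε.toReal, ENNReal.toReal_pos hε.ne' h, by rw [ENNReal.ofReal_toReal h]⟩
  have hC : 0 < max C 1 := lt_max_of_lt_right one_pos
  obtain ⟨N0, hN0⟩ := main_aux ha hR ha1 hg hC hη
  filter_upwards [eventually_ge_atTop N0] with N hN
  refine le_trans ?_ hηε
  have h1 := hN0 N hN (P := P N) (X := X N) (U := fun k => U N (k + 1))
    (v := fun k => v N (k + 1)) (hX N) (fun k => (hU N).measurable _)
    (indep_of_indep_of_le_left (hU N).indep (iSup_le fun k =>
      le_iSup (fun k => MeasurableSpace.comap (U N k) (borel ℝ)) (k + 1)))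
    (fun n => (hv N n).mono (queryInfo_le n) le_rfl)
  refine le_trans (measure_mono ?_) h1
  intro ω hω
  have h2 : ENNReal.ofReal (C * N) ≤ ENNReal.ofReal (max C 1 * N) := by
    apply ENNReal.ofReal_le_ofReal
    apply mul_le_mul_of_nonneg_right (le_max_left _ _) (by positivity)
  exact hitting_subset (hω.trans h2)

end Pool.Agent.Results.MP_f9dad2_pr.SuperlinearAtThreshold
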